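import Pool.Agent.H503R3.FI.Stmts

set_option autoImplicit false

namespace H503R3.FI.TaskA594

open HahnSeries

abbrev Γ : Type := ℤ ×ₗ ℤ
abbrev k : Type := HahnSeries Γ (ZMod 2)

instance : Fact (Nat.Prime 2) := ⟨Nat.prime_two⟩

def Sg : Γ := toLex (0, 1)
def Tg : Γ := toLex (-1, 0)

noncomputable def s : k := single Sg 1
noncomputable def t : k := single Tg 1

/-- parities of the coordinates -/
def par (g : Γ) : ZMod 2 × ZMod 2 := (((ofLex g).1 : ZMod 2), ((ofLex g).2 : ZMod 2))

theorem par_add (g h : Γ) : par (g + h) = par g + par h := by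
  unfold par
  ext
  · show (((ofLex g).1 + (ofLex h).1 : ℤ) : ZMod 2) = _
    push_cast; rfl
  · show (((ofLex g).2 + (ofLex h).2 : ℤ) : ZMod 2) = _
    push_cast; rfl

theorem par_two (g : Γ) : par (g + g) = 0 := by
  rw [par_add]
  ext
  · exact CharTwo.add_self_eq_zero _
  · exact CharTwo.add_self_eq_zero _

theorem par_S : par Sg = (0, 1) := by decide
theorem par_T : par Tg = (1, 0) := by decide

theorem T_lt : Tg < Sg + Sg := by decide

theorem s_order : s.orderTop = Sg := orderTop_single one_ne_zero
theorem t_order : t.orderTop = Tg := orderTop_single one_ne_zero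

theorem s_ne : s ≠ 0 := by
  rw [← orderTop_ne_top, s_order]; exact WithTop.coe_ne_top
theorem t_ne : t ≠ 0 := by
  rw [← orderTop_ne_top, t_order]; exact WithTop.coe_ne_top

/-- three terms with distinct orders -/
theorem three {x y z : k} (h : x + y + z = 0) (hxy : x.orderTop = y.orderTop → x = 0 ∧ y = 0)
    (hxz : x.orderTop = z.orderTop → x = 0 ∧ z = 0)
    (hyz : y.orderTop = z.orderTop → y = 0 ∧ z = 0) : x = 0 ∧ y = 0 ∧ z = 0 := by
  have hz : z = -(x + y) := by linear_combination h
  rcases lt_trichotomy x.orderTop y.orderTop with h1 | h1 | h1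
  · have h2 : z.orderTop = x.orderTop := by rw [hz, orderTop_neg, orderTop_add_eq_left h1]
    have h3 := (hxz h2.symm).1
    rw [h3, orderTop_zero] at h1
    exact absurd h1 not_top_lt
  · obtain ⟨h2, h3⟩ := hxy h1
    refine ⟨h2, h3, ?_⟩
    rw [hz, h2, h3]; simp
  · have h2 : z.orderTop = y.orderTop := by rw [hz, orderTop_neg, orderTop_add_eq_right h1]
    have h3 := (hyz h2.symm).1
    rw [h3, orderTop_zero] at h1
    exact absurd h1 not_top_lt

/-- different parities -/
theorem par_ne {x y : k} {g h : Γ} (a b : k) (hx : x.orderTop = g + (a.orderTop + a.orderTop))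
    (hy : y.orderTop = h + (b.orderTop + b.orderTop)) (hgh : par g ≠ par h)
    (hxy : x.orderTop = y.orderTop) : x = 0 ∧ y = 0 := by
  by_cases ha : a = 0
  · have : x.orderTop = ⊤ := by rw [hx, ha, orderTop_zero]; rfl
    rw [← orderTop_eq_top, ← orderTop_eq_top, ← hxy]
    exact ⟨this, this⟩
  by_cases hb : b = 0
  · have : y.orderTop = ⊤ := by rw [hy, hb, orderTop_zero]; rfl
    rw [← orderTop_eq_top, ← orderTop_eq_top, hxy]
    exact ⟨this, this⟩
  exfalso
  rw [← order_eq_orderTop_of_ne_zero ha] at hx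
  rw [← order_eq_orderTop_of_ne_zero hb] at hy
  rw [hx, hy] at hxy
  have h1 : g + (a.order + a.order) = h + (b.order + b.order) := by exact_mod_cast hxy
  have h2 := congrArg par h1
  rw [par_add g, par_add h, par_two, par_two, add_zero, add_zero] at h2
  exact hgh h2

/-- `1, s, t` are linearly independent over the squares -/
theorem key {a b c : k} (h : s * a ^ 2 + b ^ 2 + t * c ^ 2 = 0) : a = 0 ∧ b = 0 ∧ c = 0 := by
  have o1 : (s * a ^ 2).orderTop = Sg + (a.orderTop + a.orderTop) := by
    rw [sq, orderTop_mul, orderTop_mul, s_order]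
  have o2 : (b ^ 2).orderTop = ((0 : Γ) : WithTop Γ) + (b.orderTop + b.orderTop) := by
    rw [sq, orderTop_mul]; simp
  have o3 : (t * c ^ 2).orderTop = Tg + (c.orderTop + c.orderTop) := by
    rw [sq, orderTop_mul, orderTop_mul, t_order]
  have p0 : par (0 : Γ) = (0, 0) := by decide
  obtain ⟨h1, h2, h3⟩ := three h
    (par_ne a b o1 o2 (by rw [par_S, p0]; decide))
    (par_ne a c o1 o3 (by rw [par_S, par_T]; decide))
    (par_ne b c o2 o3 (by rw [p0, par_T]; decide))
  refine ⟨?_, ?_, ?_⟩
  · rcases mul_eq_zero.1 h1 with h | h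
    · exact absurd h s_ne
    · exact pow_eq_zero_iff (two_ne_zero) |>.1 h
  · exact pow_eq_zero_iff (two_ne_zero) |>.1 h2
  · rcases mul_eq_zero.1 h3 with h | h
    · exact absurd h t_ne
    · exact pow_eq_zero_iff (two_ne_zero) |>.1 h

theorem two_eq_zero : (2 : k) = 0 := by
  have h : (2 : ZMod 2) = 0 := by decide
  have : (2 : k) = C (2 : ZMod 2) := (map_ofNat C 2).symm
  rw [this, h, map_zero]

instance charP_k : CharP k 2 := by
  have : CharP (ZMod 2) 2 := inferInstance
  exact charP_of_injective_ringHom (f := (C : ZMod 2 →+* k)) (C_injective) 2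

/-- `x ^ 2 + s x + t` has no root -/
theorem no_root (r : k) : r ^ 2 ≠ t + s * r := by
  intro h
  have h0 : r ^ 2 + s * r + t = 0 := by
    rw [h]
    linear_combination (t + s * r) * two_eq_zero
  have hr : r ≠ 0 := by
    intro hr; rw [hr] at h0
    apply t_ne
    simpa using h0
  have o1 : (r ^ 2).orderTop = ((r.order + r.order : Γ) : WithTop Γ) := by
    rw [sq, orderTop_mul, ← order_eq_orderTop_of_ne_zero hr]; rfl
  have o2 : (s * r).orderTop = ((Sg + r.order : Γ) : WithTop Γ) := by
    rw [orderTop_mul, s_order, ← order_eq_orderTop_of_ne_zero hr]; rfl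
  have hz : t = -(r ^ 2 + s * r) := by linear_combination h0
  have hx : r ^ 2 = -(s * r + t) := by linear_combination h0
  by_cases c1 : (r ^ 2).orderTop = (s * r).orderTop
  · have h1 : r.order + r.order = Sg + r.order := by
      rw [o1, o2] at c1; exact_mod_cast c1
    have h2 : r.order = Sg := add_right_cancel h1
    have h3 : min (r ^ 2).orderTop (s * r).orderTop ≤ t.orderTop := by
      rw [hz, orderTop_neg]; exact min_orderTop_le_orderTop_add
    rw [← c1, min_self, o1, h2, t_order] at h3
    have h4 : Sg + Sg ≤ Tg := by exact_mod_cast h3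
    exact absurd T_lt (not_lt.2 h4)
  · by_cases c2 : (s * r).orderTop = t.orderTop
    · have h1 : Sg + r.order = Tg := by
        rw [o2, t_order] at c2; exact_mod_cast c2
      have h3 : min (s * r).orderTop t.orderTop ≤ (r ^ 2).orderTop := by
        rw [hx, orderTop_neg]; exact min_orderTop_le_orderTop_add
      rw [← c2, min_self, o1, o2] at h3
      have h4 : Sg + r.order ≤ r.order + r.order := by exact_mod_cast h3
      have h5 : Sg ≤ r.order := le_of_add_le_add_right h4
      have h6 : Sg + Sg ≤ Sg + r.order := add_le_add_right h5 Sg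
      rw [h1] at h6
      exact absurd T_lt (not_lt.2 h6)
    · have := three h0 (fun h => absurd h c1) (fun h => ?_) (fun h => absurd h c2)
      · exact t_ne this.2.2
      · exfalso
        rw [o1, t_order] at h
        have h1 : r.order + r.order = Tg := by exact_mod_cast h
        have h2 := congrArg par h1
        rw [par_two, par_T] at h2
        exact absurd h2 (by decide)

instance : Fact (∀ r : k, r ^ 2 ≠ t + s * r) := ⟨no_root⟩

abbrev L : Type := QuadraticAlgebra k t s

noncomputable def β : L := ⟨0, 1⟩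

theorem β_re : β.re = 0 := rfl
theorem β_im : β.im = 1 := rfl

theorem no_root2 (r : L) : r ^ 2 ≠ β + 0 * r := by
  intro h
  have h1 := congrArg QuadraticAlgebra.im h
  rw [sq] at h1
  simp only [QuadraticAlgebra.im_mul, QuadraticAlgebra.im_add, zero_mul,
    QuadraticAlgebra.im_zero, add_zero, β] at h1
  have h2 : s * r.im ^ 2 + 1 ^ 2 + t * 0 ^ 2 = 0 := by
    have : s * r.im ^ 2 = 1 := by
      linear_combination h1 - (r.re * r.im) * two_eq_zero
    rw [this]
    linear_combination two_eq_zero
  exact one_ne_zero (key h2).2.1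

instance : Fact (∀ r : L, r ^ 2 ≠ β + 0 * r) := ⟨no_root2⟩

abbrev K : Type := QuadraticAlgebra L β 0

noncomputable def α : K := ⟨0, 1⟩
noncomputable def βK : K := ⟨β, 0⟩

theorem α_re : α.re = 0 := rfl
theorem α_im : α.im = 1 := rfl
theorem βK_re : βK.re = β := rfl
theorem βK_im : βK.im = 0 := rfl

theorem ext4 {z w : K} (h1 : z.re.re = w.re.re) (h2 : z.re.im = w.re.im)
    (h3 : z.im.re = w.im.re) (h4 : z.im.im = w.im.im) : z = w :=
  QuadraticAlgebra.ext (QuadraticAlgebra.ext h1 h2) (QuadraticAlgebra.ext h3 h4)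

theorem algebraMap_def (a : k) : algebraMap k K a = ⟨⟨a, 0⟩, 0⟩ := rfl
theorem am_re (a : k) : (algebraMap k K a).re = ⟨a, 0⟩ := rfl
theorem am_im (a : k) : (algebraMap k K a).im = 0 := rfl

theorem expand (a b c e : k) : algebraMap k K a + algebraMap k K b * α +
    algebraMap k K c * βK + algebraMap k K e * (α * βK) = ⟨⟨a, c⟩, ⟨b, e⟩⟩ := by
  apply ext4 <;> simp [am_re, am_im, α_re, α_im, βK_re, βK_im, β_re, β_im]

theorem fieldData : FieldData k K α βK s t where
  char := charP_k
  sqa := by
    rw [sq]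
    apply ext4 <;> simp [am_re, am_im, α_re, α_im, βK_re, βK_im, β_re, β_im]
  sqb := by
    rw [sq]
    apply ext4 <;> simp [am_re, am_im, α_re, α_im, βK_re, βK_im, β_re, β_im]
  indep := by
    intro a b c e h
    rw [expand] at h
    have h1 := congrArg (fun z : K => z.re.re) h
    have h2 := congrArg (fun z : K => z.re.im) h
    have h3 := congrArg (fun z : K => z.im.re) h
    have h4 := congrArg (fun z : K => z.im.im) h
    exact ⟨h1, h3, h2, h4⟩
  span := by
    intro z
    exact ⟨z.re.re, z.im.re, z.re.im, z.im.im, by rw [expand]⟩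
  closed := by
    rintro z ⟨c, hc⟩
    have h1 := congrArg (fun z : K => z.re.im) hc
    rw [sq, algebraMap_def] at h1
    simp only [QuadraticAlgebra.re_mul, QuadraticAlgebra.im_mul, QuadraticAlgebra.re_add,
      QuadraticAlgebra.im_add, β] at h1
    have h2 : s * z.re.im ^ 2 + (z.im.re + s * z.im.im) ^ 2 + t * z.im.im ^ 2 = 0 := by
      linear_combination h1 - (z.re.re * z.re.im) * two_eq_zero
    obtain ⟨h3, h4, h5⟩ := key h2
    rw [h5, mul_zero, add_zero] at h4
    refine ⟨z.re.re, ?_⟩
    rw [algebraMap_def]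
    apply ext4
    · rfl
    · exact h3
    · exact h4
    · exact h5

theorem taskA : TaskA := ⟨k, K, inferInstance, inferInstance, inferInstance, α, βK, s, t, fieldData⟩

end H503R3.FI.TaskA594
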